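import Mathlib

open Finset

namespace Pool.Agent.Results.MP_bdd522_nt.Five

/-- The generalized central trinomial coefficient `T_n(b, c)`. -/
def T (n : ℕ) (b c : ℤ) : ℤ :=
  ∑ j ∈ range (n / 2 + 1), n.choose (2 * j) * (2 * j).choose j * c ^ j * b ^ (n - 2 * j)

/-- `x - y` lies in `p ^ 3 ℤ_(p)`. -/
def Cong (p : ℕ) (x y : ℚ) : Prop := ¬ p ∣ ((x - y) / p ^ 3).den

theorem result : ¬ ∀ p : ℕ, p.Prime → 3 < p →
    Cong p (∑ k ∈ range p, (3 * k + 1) * (T k 2 3 : ℚ) ^ 3 / (-64) ^ k)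
      (p * jacobiSym (-2) p) := fun h => by
  have := h 5 (by norm_num) (by norm_num)
  have e : jacobiSym (-2) 5 = -1 := by norm_num
  rw [e] at this
  exact this (by decide +kernel)

end Pool.Agent.Results.MP_bdd522_nt.Five
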